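import Pool.Agent.Helper95.OD.St

set_option autoImplicit false

namespace Pool.Agent.Helper39.OD

open Pool.Agent.Helper95.OD Finset
open scoped Classical

theorem card_same (m r : ℕ) (T : Finset (Vx m r)) :
    ((T ×ˢ T).filter (fun p => p.1.1 = p.2.1)).card
      = ∑ i : Fin m, (T.filter (fun v => v.1 = i)).card ^ 2 := by
  have h : (T ×ˢ T).filter (fun p => p.1.1 = p.2.1)
      = (univ : Finset (Fin m)).biUnion
          (fun i => (T.filter (fun v => v.1 = i)) ×ˢ (T.filter (fun v => v.1 = i))) := by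
    ext p
    simp only [mem_filter, mem_product, mem_biUnion, mem_univ, true_and]
    constructor
    · rintro ⟨⟨h1, h2⟩, h3⟩
      exact ⟨p.1.1, ⟨h1, rfl⟩, ⟨h2, h3.symm⟩⟩
    · rintro ⟨i, ⟨h1, h2⟩, ⟨h3, h4⟩⟩
      exact ⟨⟨h1, h3⟩, h2.trans h4.symm⟩
  rw [h, card_biUnion]
  · refine sum_congr rfl fun i _ => ?_
    rw [card_product, sq]
  · intro i _ j _ hij
    rw [Function.onFun, disjoint_left]
    intro p hp hq
    simp only [mem_product, mem_filter] at hp hq
    exact hij (hp.1.2.symm.trans hq.1.2)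

theorem hEC : EC := by
  intro m r T hT
  have h1 : (T ×ˢ T).card
      ≤ ((T ×ˢ T).filter (fun p => p.1.1 = p.2.1)).card + 2 * (cells T).card := by
    have hsub : T ×ˢ T ⊆ (T ×ˢ T).filter (fun p => p.1.1 = p.2.1)
        ∪ ((cells T).image (fun c => (lo c, hi c)) ∪ (cells T).image (fun c => (hi c, lo c))) := by
      intro p hp
      have hp' := mem_product.mp hp
      simp only [mem_union, mem_filter, mem_image, cells, mem_univ, true_and]
      rcases lt_trichotomy p.1.1 p.2.1 with h | h | h
      · right; left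
        exact ⟨(⟨(p.1.1, p.2.1), h⟩, p.1.2, p.2.2), ⟨hp'.1, hp'.2⟩, rfl⟩
      · left; exact ⟨hp, h⟩
      · right; right
        exact ⟨(⟨(p.2.1, p.1.1), h⟩, p.2.2, p.1.2), ⟨hp'.2, hp'.1⟩, rfl⟩
    calc (T ×ˢ T).card ≤ _ := card_le_card hsub
      _ ≤ _ := card_union_le _ _
      _ ≤ ((T ×ˢ T).filter (fun p => p.1.1 = p.2.1)).card + ((cells T).card + (cells T).card) := by
        gcongr
        exact (card_union_le _ _).trans (add_le_add card_image_le card_image_le)
      _ = _ := by ring
  rw [card_same, card_product] at h1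
  have h2 : 16 * ∑ i : Fin m, (T.filter (fun v => v.1 = i)).card ^ 2 ≤ r * T.card := by
    have h3 : T.card = ∑ i : Fin m, (T.filter (fun v => v.1 = i)).card :=
      card_eq_sum_card_fiberwise (fun v _ => mem_univ _)
    rw [h3, mul_sum, mul_sum]
    refine sum_le_sum fun i _ => ?_
    have := Nat.mul_le_mul_right ((T.filter (fun v => v.1 = i)).card) (hT i)
    calc 16 * (T.filter (fun v => v.1 = i)).card ^ 2
        = 16 * (T.filter (fun v => v.1 = i)).card * (T.filter (fun v => v.1 = i)).card := by ring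
      _ ≤ _ := this
  nlinarith [h1, h2]

end Pool.Agent.Helper39.OD
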