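import Pool.Agent.Helper48.OD.St

/-! Project OD, module ER. -/

set_option autoImplicit false

namespace Pool.Agent.Helper39.OD

open Pool.Agent.Helper43.GD Pool.Agent.Helper48.OD

private theorem arith {h a k : ℕ} (a3 : 3 ≤ a) (ko : Odd k)
    (ak : 2 * h ∣ 2 ^ a * k) (ah : 2 ^ a ∣ 2 * h) :
    Even h ∧ ∃ c : ℕ, Odd c ∧ k * 2 ^ (a - 1) = h * c := by
  obtain ⟨n, rfl⟩ : ∃ n, a = n + 2 := ⟨a - 2, by omega⟩
  have e1 : (2 : ℕ) ^ (n + 2) = 2 * (2 * 2 ^ n) := by ring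
  have e2 : (2 : ℕ) ^ (n + 2 - 1) = 2 * 2 ^ n := by
    have : n + 2 - 1 = n + 1 := by omega
    rw [this]; ring
  have hp : 0 < (2 : ℕ) ^ n := by positivity
  obtain ⟨b, hb⟩ := ah
  have hh : h = 2 * 2 ^ n * b := by
    rw [e1] at hb
    have : 2 * h = 2 * (2 * 2 ^ n * b) := by rw [hb]; ring
    omega
  have hbk : b ∣ k := by
    rw [hb] at ak
    exact Nat.dvd_of_mul_dvd_mul_left (by positivity) ak
  obtain ⟨c, hc⟩ := hbk
  refine ⟨?_, c, ?_, ?_⟩
  · rw [hh, mul_assoc]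
    exact even_two_mul _
  · rw [hc] at ko
    exact (Nat.odd_mul.1 ko).2
  · rw [e2, hc, hh]; ring

private theorem pow_two_aux {L : Type} [CommRing L] (v : L) (n : ℕ) :
    ∃ w : L, (1 - v) ^ (2 ^ n) = 1 + v ^ (2 ^ n) + 2 * w := by
  induction n with
  | zero => exact ⟨-v, by ring⟩
  | succ n ih =>
    obtain ⟨w, hw⟩ := ih
    refine ⟨v ^ (2 ^ n) + 2 * w * (1 + v ^ (2 ^ n)) + 2 * w ^ 2, ?_⟩
    rw [pow_succ 2 n, pow_mul, pow_mul, hw]
    ring

theorem hER (hG : StGNV) : StER := by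
  intro l k h a L _ x R
  have ha3 := R.a3
  obtain ⟨hev, c, hc, hkc⟩ := arith R.a3 R.ko R.ak R.ah
  have hxh : x ^ h = -1 := by
    apply Units.ext
    rw [Units.val_pow_eq_pow_val, R.xh, Units.val_neg, Units.val_one]
  have hfin : Finite L := R.fin
  have hva : (x ^ k) ^ (2 ^ (a - 1)) = -1 := by
    rw [← pow_mul, hkc, pow_mul, hxh, hc.neg_one_pow]
  have hva' : ((x : L) ^ k) ^ (2 ^ (a - 1)) = -1 := by
    have := congrArg Units.val hva
    simpa using this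
  have huv' : 1 - (x : L) ^ k = (x : L) ^ l := by rw [← R.tri]; ring
  have huv : IsUnit (1 - ((x ^ k : Lˣ) : L)) := by
    rw [Units.val_pow_eq_pow_val, huv', ← Units.val_pow_eq_pow_val]
    exact (x ^ l).isUnit
  have htwo : IsUnit (2 : L) := by
    obtain ⟨w, hw⟩ := pow_two_aux ((x : L) ^ k) (a - 1)
    rw [hva'] at hw
    have h2 : (1 - (x : L) ^ k) ^ (2 ^ (a - 1)) = 2 * w := by rw [hw]; ring
    have hu : IsUnit ((1 - (x : L) ^ k) ^ (2 ^ (a - 1))) := by
      have := huv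
      rw [Units.val_pow_eq_pow_val] at this
      exact this.pow _
    rw [h2] at hu
    exact isUnit_of_mul_isUnit_left hu
  have hgv : Gn ((x ^ k : Lˣ) : L) := hG l k h L x R.fin R.gc R.gn R.xh R.tri
  have hgx2 : Gn ((x ^ 2 : Lˣ) : L) := by
    rw [gn_iff]
    intro S hS
    have hS2 : (x : L) ^ 2 ∈ S := by
      rw [← Units.val_pow_eq_pow_val]; exact hS
    apply (gn_iff _).1 R.gn S
    obtain ⟨m, hm⟩ := R.ko
    have hfinal : (x : L) ^ k ∈ S → (x : L) ∈ S := by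
      intro hv
      have h1 : ((x ^ (2 * m) : Lˣ) : L) ∈ S := by
        rw [Units.val_pow_eq_pow_val, pow_mul]
        exact S.pow_mem hS2 m
      have h2 := inv_mem S _ h1
      have h3 : (x : L) = (x : L) ^ k * (((x ^ (2 * m))⁻¹ : Lˣ) : L) := by
        rw [hm, pow_succ, ← Units.val_pow_eq_pow_val, mul_comm _ (x : L), mul_assoc,
          Units.mul_inv, mul_one]
      rw [h3]
      exact S.mul_mem hv h2
    apply hfinal
    have hv1 : (x : L) ^ k = 1 - (x : L) ^ l := by rw [← R.tri]; ring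
    rcases Nat.even_or_odd l with hl | hl
    · obtain ⟨m', hm'⟩ := hl
      have h1 : (x : L) ^ l ∈ S := by
        rw [hm', ← two_mul, pow_mul]
        exact S.pow_mem hS2 m'
      rw [hv1]
      exact S.sub_mem S.one_mem h1
    · have h1 : ((x : L) ^ k) ^ 2 ∈ S := by
        rw [← pow_mul, mul_comm, pow_mul]
        exact S.pow_mem hS2 k
      have h2 : ((x : L) ^ l) ^ 2 ∈ S := by
        rw [← pow_mul, mul_comm, pow_mul]
        exact S.pow_mem hS2 l
      have h3 : 2 * (x : L) ^ k ∈ S := by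
        have e : 2 * (x : L) ^ k = 1 + ((x : L) ^ k) ^ 2 - ((x : L) ^ l) ^ 2 := by
          rw [← huv']; ring
        rw [e]
        exact S.sub_mem (S.add_mem S.one_mem h1) h2
      obtain ⟨t, ht⟩ := htwo
      have h4 : (t : L) ∈ S := by
        rw [ht, ← one_add_one_eq_two]
        exact S.add_mem S.one_mem S.one_mem
      have h5 := inv_mem S t h4
      have h6 : (x : L) ^ k = ((t⁻¹ : Lˣ) : L) * (2 * (x : L) ^ k) := by
        rw [← ht, Units.inv_mul_cancel_left]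
      rw [h6]
      exact S.mul_mem h5 h3
  refine ⟨⟨R.fin, R.a3, ⟨k, R.ko, rfl⟩, hva, ⟨h, hev, hxh⟩, htwo, huv, R.gn, hgx2, hgv⟩, R.fin, ?_⟩
  have e1 : (x : L) ^ (2 * (k * 2 ^ (a - 2))) = -1 := by
    have : 2 * (k * 2 ^ (a - 2)) = k * 2 ^ (a - 1) := by
      have h2 : a - 1 = (a - 2) + 1 := by omega
      rw [h2, pow_succ]; ring
    rw [this, pow_mul, hva']
  have hd : ((x : L) ^ 2 - 1) ∣ ((x : L) ^ 2) ^ (k * 2 ^ (a - 2)) - 1 ^ (k * 2 ^ (a - 2)) :=
    sub_dvd_pow_sub_pow _ _ _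
  rw [← pow_mul, e1, one_pow] at hd
  apply isUnit_of_dvd_unit hd
  have : (-1 : L) - 1 = -2 := by ring
  rw [this]
  exact htwo.neg

end Pool.Agent.Helper39.OD

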